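import Pool.Agent.W581.Sullivan.Main

set_option autoImplicit false

open Pool.Agent.W581.Sullivan

namespace Pool.Agent.Results.MP_65ddbc_gt.NotLocalAverage

/-- A negative answer to Q1. On the compact complex torus `M = ℂ² / ℤ[i]²` there are a complex
cycle `c` (with `k = 1`) and a point `x` such that on no open neighbourhood `U` of `x` is `c` an
average of irreducible closed analytic subvarieties of `U`, for no measure on no σ-algebra. -/
theorem result : ∃ c : (C2 → C2 [⋀^Fin 2]→L[ℝ] ℝ) → ℝ, IsComplexCycle gaussLattice c ∧
    ∃ x : C2, ∀ U : Set C2, IsOpen U → IsPeriodicSet gaussLattice U → x ∈ U →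
      ¬ IsAverageOn gaussLattice unitCube U c :=
  ⟨trop, trop_cycle, 0, fun _ hU hUp h0 => not_average hU hUp h0⟩

end Pool.Agent.Results.MP_65ddbc_gt.NotLocalAverage
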